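import Pool.Agent.helper32.Cant.Defs
import Pool.Agent.helper32.Cant.Basic

set_option autoImplicit false

/-!
# Module PATH of MP_3c0a64_an: the path of logarithmic densities (deterministic part)
-/

namespace Pool.Agent.helper32.Cant

open Finset

/-- steps bounded above -/
theorem path_steps {n : ℕ} {f : ℕ → ℝ} {L : ℝ}
    (hs : ∀ k, k + 1 ≤ n → f (k + 1) ≤ f k + L) (k m : ℕ) (hkm : k + m ≤ n) :
    f (k + m) ≤ f k + m * L := by
  induction m with
  | zero => simp
  | succ m ih =>
    have h1 := ih (by omega)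
    have h2 := hs (k + m) (by omega)
    rw [← add_assoc]
    push_cast
    linarith

/-- a path with steps at most `L` which reaches `4 e` climbs by `e` above the level `2 e` -/
theorem path_climb {n A : ℕ} {f : ℕ → ℝ} {L e : ℝ} (h0 : f 0 = 0) (hL : 0 ≤ L)
    (hs : ∀ k, k + 1 ≤ n → f (k + 1) ≤ f k + L) (he : 0 < e)
    (hA : ((A : ℝ) + 1) * L ≤ e) (h2A : 2 * A ≤ n) (hn : 4 * e ≤ f n)
    (P : ℕ → Prop) (hP : ∀ k, A ≤ k → k < n → e ≤ f (k - A) → P k) :
    e ≤ ∑ k ∈ Ico A (n - A), |f (k + 1) - f k| * ind (P k) := by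
  classical
  have hAL : (A : ℝ) * L ≤ e - L := by linarith
  have hf1 : 4 * e - A * L ≤ f (n - A) := by
    have := path_steps hs (n - A) A (by omega)
    rw [Nat.sub_add_cancel (by omega)] at this
    linarith
  set k0 := Nat.findGreatest (fun k => f k ≤ 2 * e) (n - A) with hk0
  have hk0le : k0 ≤ n - A := Nat.findGreatest_le _
  have hfk0 : f k0 ≤ 2 * e := by
    have h00 : f 0 ≤ 2 * e := by rw [h0]; linarith
    exact Nat.findGreatest_spec (P := fun k => f k ≤ 2 * e) (n := n - A) (m := 0)
      (Nat.zero_le _) h00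
  have hAk0 : A ≤ k0 := by
    apply Nat.le_findGreatest (by omega)
    have := path_steps hs 0 A (by omega)
    rw [zero_add, h0] at this
    linarith
  have hk0lt : k0 < n - A := by
    rcases lt_or_eq_of_le hk0le with h | h
    · exact h
    · exfalso
      rw [h] at hfk0
      linarith
  have hbig : ∀ k, k0 < k → k ≤ n - A → 2 * e < f k := by
    intro k hk hk'
    by_contra hcon
    exact Nat.findGreatest_is_greatest hk hk' (not_lt.1 hcon)
  have hPk : ∀ k ∈ Ico (k0 + 1) (n - A), P k := by
    intro k hk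
    rw [mem_Ico] at hk
    apply hP k (by omega) (by omega)
    have h1 := hbig k (by omega) (by omega)
    have h2 := path_steps hs (k - A) A (by omega)
    rw [Nat.sub_add_cancel (by omega)] at h2
    linarith
  have htel : ∑ k ∈ Ico (k0 + 1) (n - A), (f (k + 1) - f k) = f (n - A) - f (k0 + 1) :=
    Finset.sum_Ico_sub f (by omega)
  have hstep := hs k0 (by omega)
  calc e ≤ f (n - A) - f (k0 + 1) := by linarith
    _ = ∑ k ∈ Ico (k0 + 1) (n - A), (f (k + 1) - f k) := htel.symm
    _ ≤ ∑ k ∈ Ico (k0 + 1) (n - A), |f (k + 1) - f k| * ind (P k) := by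
        apply Finset.sum_le_sum
        intro k hk
        rw [ind_of (hPk k hk), mul_one]
        exact le_abs_self _
    _ ≤ ∑ k ∈ Ico A (n - A), |f (k + 1) - f k| * ind (P k) := by
        apply Finset.sum_le_sum_of_subset_of_nonneg
        · apply Finset.Ico_subset_Ico (by omega) le_rfl
        · intro k _ _
          exact mul_nonneg (abs_nonneg _) (ind_nonneg _)

end Pool.Agent.helper32.Cant
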