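import Pool.Agent.helper32.Cant.Defs
import Pool.Agent.helper32.Cant.Basic
import Pool.Agent.helper34.Cant.PATHkey

set_option autoImplicit false

namespace Pool.Agent.helper32.Cant

open Finset

/-- the few-block probability, with the parameters -/
theorem fs_few {ε η : ℝ} {n q N k : ℕ} (hε : 0 < ε) (hη : η ≤ ε / 8) (hn : 1 ≤ n)
    (hq : 8 / ε ≤ q) (hN : (N : ℝ) ≤ ε * n / (4 * q) + 1) (hk : k ≤ n) {K : ℝ}
    (hK : K ≤ Real.exp (η * n)) :
    (2 : ℝ) ^ (k / q) * √(3 ^ q) ^ N * √(3 * n * K * Real.exp (-(ε * n)))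
      ≤ 3 * n * 3 ^ q * Real.exp (-(ε / 5 * n)) := by
  have hn0 : (0 : ℝ) < n := by exact_mod_cast hn
  have hn1 : (1 : ℝ) ≤ n := by exact_mod_cast hn
  have hq0 : (0 : ℝ) < q := lt_of_lt_of_le (by positivity) hq
  have hq8 : 8 ≤ ε * q := by rwa [div_le_iff₀' hε] at hq
  -- first factor
  have h1 : (2 : ℝ) ^ (k / q) ≤ Real.exp (0.7 * ε * n / 8) := by
    have hl2 : Real.log 2 ≤ 0.7 := by
      have := Real.log_two_lt_d9; linarith
    have e1 : (2 : ℝ) ^ (k / q) = Real.exp (((k / q : ℕ) : ℝ) * Real.log 2) := by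
      rw [mul_comm, Real.exp_mul, Real.exp_log (by norm_num), Real.rpow_natCast]
    rw [e1]
    apply Real.exp_le_exp.2
    have h11 : ((k / q : ℕ) : ℝ) ≤ ε * n / 8 := by
      calc ((k / q : ℕ) : ℝ) ≤ (k : ℝ) / q := Nat.cast_div_le
        _ ≤ (n : ℝ) / q := by
            apply div_le_div_of_nonneg_right _ hq0.le
            exact_mod_cast hk
        _ ≤ ε * n / 8 := by
            rw [div_le_div_iff₀ hq0 (by norm_num)]
            nlinarith
    have h12 : (0 : ℝ) ≤ ((k / q : ℕ) : ℝ) := Nat.cast_nonneg _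
    have h13 : (0 : ℝ) ≤ ε * n / 8 := by positivity
    have h14 := Real.log_nonneg (show (1 : ℝ) ≤ 2 by norm_num)
    calc ((k / q : ℕ) : ℝ) * Real.log 2 ≤ (ε * n / 8) * 0.7 :=
          mul_le_mul h11 hl2 h14 h13
      _ = 0.7 * ε * n / 8 := by ring
  -- second factor
  have hl3 : Real.log 3 ≤ 1.1 := by
    have h3 : Real.log 3 ≤ 1.1 := by
      rw [← Real.log_exp 1.1]
      apply Real.log_le_log (by norm_num)
      have h5 : (1 : ℝ) + 1.1 + 1.1 ^ 2 / 2 + 1.1 ^ 3 / 6 ≤ Real.exp 1.1 := by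
        have := Real.sum_le_exp_of_nonneg (x := (1.1 : ℝ)) (by norm_num) 4
        simp [Finset.sum_range_succ, Nat.factorial] at this
        norm_num at this ⊢
        linarith
      have h6 := Real.sum_le_exp_of_nonneg (x := (1.1 : ℝ)) (by norm_num) 6
      simp [Finset.sum_range_succ, Nat.factorial] at h6
      norm_num at h6 ⊢
      linarith
    exact h3
  have h2 : √(3 ^ q) ^ N ≤ Real.exp (1.1 * ε * n / 8) * √(3 ^ q) := by
    have e1 : √((3 : ℝ) ^ q) = Real.exp (q * Real.log 3 / 2) := by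
      rw [Real.exp_half, mul_comm, Real.exp_mul, Real.exp_log (by norm_num), Real.rpow_natCast]
    rw [e1, ← Real.exp_nat_mul, ← Real.exp_add]
    apply Real.exp_le_exp.2
    have hlog0 : 0 ≤ Real.log 3 := Real.log_nonneg (by norm_num)
    have h21 : (N : ℝ) * q ≤ ε * n / 4 + q := by
      calc (N : ℝ) * q ≤ (ε * n / (4 * q) + 1) * q := mul_le_mul_of_nonneg_right hN hq0.le
        _ = ε * n / 4 + q := by field_simp
    calc (N : ℝ) * (q * Real.log 3 / 2) = (N * q) * (Real.log 3 / 2) := by ring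
      _ ≤ (ε * n / 4 + q) * (Real.log 3 / 2) :=
          mul_le_mul_of_nonneg_right h21 (by positivity)
      _ = ε * n / 8 * Real.log 3 + q * Real.log 3 / 2 := by ring
      _ ≤ ε * n / 8 * 1.1 + q * Real.log 3 / 2 := by
          have : (0 : ℝ) ≤ ε * n / 8 := by positivity
          have := mul_le_mul_of_nonneg_left hl3 this
          linarith
      _ = 1.1 * ε * n / 8 + q * Real.log 3 / 2 := by ring
  -- third factor
  have h3 : √(3 * n * K * Real.exp (-(ε * n))) ≤ √(3 * n) * Real.exp (-(7 / 16 * ε * n)) := by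
    have e1 : Real.exp (-(7 / 16 * ε * n)) = √(Real.exp (-(7 / 8 * ε * n))) := by
      rw [← Real.exp_half]; congr 1; ring
    rw [e1, ← Real.sqrt_mul (by positivity)]
    apply Real.sqrt_le_sqrt
    have : K * Real.exp (-(ε * n)) ≤ Real.exp (-(7 / 8 * ε * n)) := by
      calc K * Real.exp (-(ε * n)) ≤ Real.exp (η * n) * Real.exp (-(ε * n)) :=
            mul_le_mul_of_nonneg_right hK (Real.exp_pos _).le
        _ = Real.exp (η * n + -(ε * n)) := (Real.exp_add _ _).symm
        _ ≤ Real.exp (-(7 / 8 * ε * n)) := by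
            apply Real.exp_le_exp.2
            have := mul_le_mul_of_nonneg_right hη hn0.le
            linarith
    calc 3 * n * K * Real.exp (-(ε * n)) = 3 * n * (K * Real.exp (-(ε * n))) := by ring
      _ ≤ 3 * n * Real.exp (-(7 / 8 * ε * n)) := mul_le_mul_of_nonneg_left this (by positivity)
  have h4 : √((3 : ℝ) * n) ≤ 3 * n := by
    rw [Real.sqrt_le_left (by positivity)]
    nlinarith
  have h5 : √((3 : ℝ) ^ q) ≤ 3 ^ q := by
    have h51 : (1 : ℝ) ≤ 3 ^ q := one_le_pow₀ (by norm_num)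
    rw [Real.sqrt_le_left (by positivity)]
    nlinarith
  calc (2 : ℝ) ^ (k / q) * √(3 ^ q) ^ N * √(3 * n * K * Real.exp (-(ε * n)))
      ≤ Real.exp (0.7 * ε * n / 8) * (Real.exp (1.1 * ε * n / 8) * √(3 ^ q))
          * (√(3 * n) * Real.exp (-(7 / 16 * ε * n))) := by
        apply mul_le_mul _ h3 (Real.sqrt_nonneg _) (by positivity)
        exact mul_le_mul h1 h2 (by positivity) (by positivity)
    _ = √(3 * n) * √(3 ^ q) * (Real.exp (0.7 * ε * n / 8) * Real.exp (1.1 * ε * n / 8)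
          * Real.exp (-(7 / 16 * ε * n))) := by ring
    _ = √(3 * n) * √(3 ^ q) * Real.exp (0.7 * ε * n / 8 + 1.1 * ε * n / 8
          + -(7 / 16 * ε * n)) := by rw [Real.exp_add, Real.exp_add]
    _ ≤ (3 * n) * 3 ^ q * Real.exp (-(ε / 5 * n)) := by
        apply mul_le_mul _ _ (Real.exp_pos _).le (by positivity)
        · exact mul_le_mul h4 h5 (Real.sqrt_nonneg _) (by positivity)
        · apply Real.exp_le_exp.2
          have : 0 < ε * n := by positivity
          norm_num
          nlinarith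

end Pool.Agent.helper32.Cant
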