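import Pool.Agent.helper32.Cant.Defs
import Pool.Agent.helper32.Cant.Basic
import Pool.Agent.helper34.Cant.FSfew

set_option autoImplicit false

namespace Pool.Agent.helper32.Cant

open Finset Filter Topology

/-- the choice of the threshold of `n` -/
theorem fs_eventually {δ ε η C : ℝ} (hδ : 0 < δ) (hε : 0 < ε) (hη : 0 < η) (A : ℕ) :
    ∀ᶠ n : ℕ in atTop, 1 ≤ n ∧ 1 / (n : ℝ) < 1 / 8 ∧ 2 * Real.exp (-(δ / 2 * n)) < 1 / 8 ∧
      3 * (A : ℝ) ^ 2 / n ≤ 2 * A * η ∧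
      C * (n * Real.exp (-(ε / 5 * n))) < 1 / 8 ∧ 2 * A ≤ n ∧
      ((A : ℝ) + 1) * Real.log 3 ≤ ε * n := by
  have hnat : Tendsto (fun n : ℕ => (n : ℝ)) atTop atTop := tendsto_natCast_atTop_atTop
  have e1 : ∀ᶠ n : ℕ in atTop, 1 ≤ n := eventually_ge_atTop 1
  have e2 : ∀ᶠ n : ℕ in atTop, 1 / (n : ℝ) < 1 / 8 :=
    (tendsto_one_div_atTop_nhds_zero_nat (𝕜 := ℝ)).eventually_lt_const (by norm_num)
  have hexp : ∀ c : ℝ, 0 < c → Tendsto (fun n : ℕ => Real.exp (-(c * n))) atTop (𝓝 0) := by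
    intro c hc
    exact Real.tendsto_exp_neg_atTop_nhds_zero.comp (hnat.const_mul_atTop hc)
  have e3 : ∀ᶠ n : ℕ in atTop, 2 * Real.exp (-(δ / 2 * n)) < 1 / 8 := by
    have := (hexp (δ / 2) (by positivity)).const_mul 2
    rw [mul_zero] at this
    exact this.eventually_lt_const (by norm_num)
  have e4 : ∀ᶠ n : ℕ in atTop, 3 * (A : ℝ) ^ 2 / n ≤ 2 * A * η := by
    rcases Nat.eq_zero_or_pos A with h | h
    · subst h
      filter_upwards with n
      simp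
    · have hA : (0 : ℝ) < A := by exact_mod_cast h
      have := (tendsto_const_div_atTop_nhds_zero_nat (𝕜 := ℝ) (3 * (A : ℝ) ^ 2)).eventually_lt_const
        (show (0 : ℝ) < 2 * A * η by positivity)
      filter_upwards [this] with n hn using hn.le
  have e5 : ∀ᶠ n : ℕ in atTop, C * (n * Real.exp (-(ε / 5 * n))) < 1 / 8 := by
    have h1 := (Real.tendsto_pow_mul_exp_neg_atTop_nhds_zero 1).comp
      (hnat.const_mul_atTop (show 0 < ε / 5 by positivity))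
    have h2 := h1.const_mul (C * (5 / ε))
    rw [mul_zero] at h2
    have h3 := h2.eventually_lt_const (show (0 : ℝ) < 1 / 8 by norm_num)
    filter_upwards [h3] with n hn
    simp only [Function.comp, pow_one] at hn
    calc C * (n * Real.exp (-(ε / 5 * n)))
        = C * (5 / ε) * (ε / 5 * n * Real.exp (-(ε / 5 * n))) := by field_simp
      _ < 1 / 8 := hn
  have e6 : ∀ᶠ n : ℕ in atTop, 2 * A ≤ n := eventually_ge_atTop _
  have e7 : ∀ᶠ n : ℕ in atTop, ((A : ℝ) + 1) * Real.log 3 ≤ ε * n :=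
    (hnat.const_mul_atTop hε).eventually_ge_atTop _
  filter_upwards [e1, e2, e3, e4, e5, e6, e7] with n h1 h2 h3 h4 h5 h6 h7
  exact ⟨h1, h2, h3, h4, h5, h6, h7⟩

/-- the choice of `η` -/
theorem fs_eta {ε C D : ℝ} (hε : 0 < ε) (A : ℕ) :
    ∃ η > 0, η ≤ ε / 8 ∧ C * √(4 * A * η) < 1 / 8 ∧ D * √η < 1 / 8 := by
  have h1 : Tendsto (fun η : ℝ => C * √(4 * A * η)) (𝓝[>] 0) (𝓝 0) := by
    have : Tendsto (fun η : ℝ => C * √(4 * A * η)) (𝓝 0) (𝓝 (C * √(4 * A * 0))) := by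
      apply Continuous.tendsto
      fun_prop
    simp only [mul_zero, Real.sqrt_zero] at this
    exact this.mono_left nhdsWithin_le_nhds
  have h2 : Tendsto (fun η : ℝ => D * √η) (𝓝[>] 0) (𝓝 0) := by
    have : Tendsto (fun η : ℝ => D * √η) (𝓝 0) (𝓝 (D * √0)) := by
      apply Continuous.tendsto
      fun_prop
    simp only [Real.sqrt_zero, mul_zero] at this
    exact this.mono_left nhdsWithin_le_nhds
  have h3 : Tendsto (fun η : ℝ => η) (𝓝[>] 0) (𝓝 0) := nhdsWithin_le_nhds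
  have e1 := h1.eventually_lt_const (show (0 : ℝ) < 1 / 8 by norm_num)
  have e2 := h2.eventually_lt_const (show (0 : ℝ) < 1 / 8 by norm_num)
  have e3 := h3.eventually_lt_const (show (0 : ℝ) < ε / 8 by positivity)
  have e4 : ∀ᶠ η : ℝ in 𝓝[>] 0, 0 < η := eventually_mem_nhdsWithin
  obtain ⟨η, h1, h2, h3, h4⟩ := (e1.and (e2.and (e3.and e4))).exists
  exact ⟨η, h4, h3.le, h1, h2⟩

/-- the choice of `h` -/
theorem fs_h (C : ℝ) : ∃ h : ℕ, 2 ≤ h ∧ C * (120 / 3 ^ h) < 1 / 8 := by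
  have h1 : Tendsto (fun h : ℕ => C * 120 * ((1 / 3 : ℝ) ^ h)) atTop (𝓝 (C * 120 * 0)) :=
    (tendsto_pow_atTop_nhds_zero_of_lt_one (by norm_num) (by norm_num)).const_mul _
  rw [mul_zero] at h1
  have e1 := h1.eventually_lt_const (show (0 : ℝ) < 1 / 8 by norm_num)
  obtain ⟨h, hh1, hh2⟩ := (e1.and (eventually_ge_atTop 2)).exists
  refine ⟨h, hh2, ?_⟩
  calc C * (120 / 3 ^ h) = C * 120 * ((1 / 3 : ℝ) ^ h) := by
        rw [one_div, inv_pow]; ring
    _ < 1 / 8 := hh1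

/-- the combination -/
theorem fs_combine {ε n Q T S F c4 : ℝ} (hε : 0 < ε) (hn : 0 < n) (hQ : 0 < Q) {N : ℝ}
    (hN : ε * n / (4 * Q) ≤ N) (hc4 : 0 ≤ c4) (hT : 0 ≤ T)
    (hcore : N * S ≤ 81 * c4 * (n ^ 2 / Q * T) + 2 * N * (n * F)) :
    1 / (ε * n) * (8 / 3 * S) ≤ 864 * c4 / ε ^ 2 * T + 16 / (3 * ε) * F := by
  have hN0 : 0 < N := lt_of_lt_of_le (by positivity) hN
  have hS : S ≤ 81 * c4 * (n ^ 2 / Q * T) / N + 2 * (n * F) := by
    have : S ≤ (81 * c4 * (n ^ 2 / Q * T) + 2 * N * (n * F)) / N := by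
      rw [le_div_iff₀ hN0]; linarith
    calc S ≤ (81 * c4 * (n ^ 2 / Q * T) + 2 * N * (n * F)) / N := this
      _ = 81 * c4 * (n ^ 2 / Q * T) / N + 2 * (n * F) := by field_simp
  have hS2 : 81 * c4 * (n ^ 2 / Q * T) / N ≤ 324 * c4 * n / ε * T := by
    rw [div_le_iff₀ hN0]
    have h1 : 0 ≤ 324 * c4 * n / ε * T := by positivity
    calc 81 * c4 * (n ^ 2 / Q * T) = 324 * c4 * n / ε * T * (ε * n / (4 * Q)) := by
          field_simp; ring
      _ ≤ 324 * c4 * n / ε * T * N := mul_le_mul_of_nonneg_left hN h1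
  have hS3 : S ≤ 324 * c4 * n / ε * T + 2 * (n * F) := by linarith
  have hen : 0 < 1 / (ε * n) * (8 / 3) := by positivity
  calc 1 / (ε * n) * (8 / 3 * S) = 1 / (ε * n) * (8 / 3) * S := by ring
    _ ≤ 1 / (ε * n) * (8 / 3) * (324 * c4 * n / ε * T + 2 * (n * F)) :=
        mul_le_mul_of_nonneg_left hS3 hen.le
    _ = 864 * c4 / ε ^ 2 * T + 16 / (3 * ε) * F := by field_simp; ring

end Pool.Agent.helper32.Cant
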