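import Pool.Agent.helper32.Cant.Defs
import Pool.Agent.helper32.Cant.Basic
import Pool.Agent.helper34.Cant.PATHkey
import Pool.Agent.helper35.Cant.MU
import Pool.Agent.helper30.Cant.YCARD
import Pool.Agent.helper30.Cant.LAM1
import Pool.Agent.helper30.Cant.LAM2

set_option autoImplicit false

/-!
# Module PATH of MP_3c0a64_an: the path of logarithmic densities
-/

namespace Pool.Agent.helper32.Cant

open Finset

theorem path_bound {n : ℕ} (c : Cfg n) {ε : ℝ} (hε : 0 < ε) {A : ℕ}
    (hA : ((A : ℝ) + 1) * Real.log 3 ≤ ε * n) (h2A : 2 * A ≤ n) (hn : 1 ≤ n) :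
    1 ≤ 1 / (n : ℝ) + 2 * Ycard c / 3 ^ n * Real.exp (4 * ε * n)
      + 1 / (ε * n) * ∑ k ∈ Ico A (n - A), 8 / 3 * ex (mu c)
          (fun x => Uf c (obs c (k - A) 0) k x * ind (Lam c ε A k x)) := by
  have hprob := isProb_mu c
  have hn0 : (0 : ℝ) < n := by exact_mod_cast hn
  have hen : 0 < ε * n := mul_pos hε hn0
  -- the pointwise bound
  have hpt : ∀ x : Sp n, 0 < mu c x →
      1 ≤ (ind (¬ typ c x) + ind (lam c n x < 4 * ε * n))
        + 1 / (ε * n) * ∑ k ∈ Ico A (n - A), |lam c (k + 1) x - lam c k x| * ind (Lam c ε A k x) := by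
    intro x hx
    have hsum0 : 0 ≤ 1 / (ε * n) * ∑ k ∈ Ico A (n - A),
        |lam c (k + 1) x - lam c k x| * ind (Lam c ε A k x) := by
      apply mul_nonneg (by positivity)
      apply Finset.sum_nonneg
      intro k _
      exact mul_nonneg (abs_nonneg _) (ind_nonneg _)
    by_cases ht : typ c x
    · by_cases hl : lam c n x < 4 * ε * n
      · rw [ind_of hl]
        have := ind_nonneg (¬ typ c x)
        linarith
      · have hl' : 4 * (ε * n) ≤ lam c n x := by
          have := not_lt.1 hl
          linarith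
        have hlog : 0 ≤ Real.log 3 := Real.log_nonneg (by norm_num)
        have hcl := path_climb (n := n) (A := A) (f := fun k => lam c k x) (L := Real.log 3)
          (e := ε * n) (lam_zero c hx) hlog
          (fun k hk => lam_succ_le c hx (by omega)) hen hA h2A hl'
          (fun k => Lam c ε A k x) (fun k _ _ h => ⟨h, ht⟩)
        have h1 : 1 ≤ 1 / (ε * n) * ∑ k ∈ Ico A (n - A),
            |lam c (k + 1) x - lam c k x| * ind (Lam c ε A k x) := by
          rw [one_div, ← div_eq_inv_mul, le_div_iff₀ hen, one_mul]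
          exact hcl
        have h2 := ind_nonneg (¬ typ c x)
        have h3 := ind_nonneg (lam c n x < 4 * ε * n)
        linarith
    · have hi : ind (¬ typ c x) = 1 := ind_of ht
      rw [hi]
      have := ind_nonneg (lam c n x < 4 * ε * n)
      linarith
  have hex := ex_mono (μ := mu c) hprob.1 (f := fun _ => (1 : ℝ))
    (g := fun x => (ind (¬ typ c x) + ind (lam c n x < 4 * ε * n))
        + 1 / (ε * n) * ∑ k ∈ Ico A (n - A), |lam c (k + 1) x - lam c k x| * ind (Lam c ε A k x))
    hpt
  rw [ex_const hprob, ex_add, ex_add, ex_smul, ex_sum] at hex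
  have h1 := not_typ c hn
  have h2 := lam_small c (4 * ε * n)
  have h3 : ∑ k ∈ Ico A (n - A),
      ex (mu c) (fun x => |lam c (k + 1) x - lam c k x| * ind (Lam c ε A k x))
      ≤ ∑ k ∈ Ico A (n - A), 8 / 3 * ex (mu c)
          (fun x => Uf c (obs c (k - A) 0) k x * ind (Lam c ε A k x)) := by
    apply Finset.sum_le_sum
    intro k hk
    rw [mem_Ico] at hk
    exact lam_step c ε hk.1 (by omega)
  have h4 := mul_le_mul_of_nonneg_left h3 (by positivity : (0 : ℝ) ≤ 1 / (ε * n))
  linarith

end Pool.Agent.helper32.Cant
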