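import Pool.Agent.helper32.Cant.Defs
import Pool.Agent.helper32.Cant.Basic
import Pool.Agent.helper34.Cant.PATH
import Pool.Agent.helper34.Cant.FSpar
import Pool.Agent.helper35.Cant.CORE
import Pool.Agent.helper35.Cant.FEW
import Pool.Agent.helper35.Cant.SUM

set_option autoImplicit false

namespace Pool.Agent.helper32.Cant

open Finset Filter Topology

/-! # module FS: the finite scale theorem -/

theorem finite_scale {δ : ℝ} (hδ : 0 < δ) : ∃ η > 0, ∃ N : ℕ, ∀ n ≥ N, ∀ c : Cfg n,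
    6 ^ n * Real.exp (-(η * n)) ≤ c.G.card → 3 ^ n * Real.exp (-(δ * n)) ≤ (Ycard c : ℝ) := by
  set ε : ℝ := δ / 8 with hεdef
  have hε : 0 < ε := by positivity
  obtain ⟨q, hq⟩ := exists_nat_ge (8 / ε)
  have hq0 : (0 : ℝ) < q := lt_of_lt_of_le (by positivity) hq
  have hq1 : 1 ≤ q := by exact_mod_cast hq0
  set C1 : ℝ := 864 * 3 ^ (4 * q) / ε ^ 2 with hC1
  have hC1pos : 0 < C1 := by positivity
  obtain ⟨h, hh2, hhC⟩ := fs_h C1
  set A : ℕ := q * (4 * h + 1) with hA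
  have hA1 : 4 * h + q ≤ A := by
    rw [hA]; nlinarith
  have hqA : q ∣ A := Dvd.intro _ rfl
  have hqleA : q ≤ A := by omega
  obtain ⟨η, hη0, hη8, hηC, hηD⟩ := fs_eta (ε := ε) (C := C1 * (48 * 3 ^ (2 * h + q)))
    (D := C1 * 4) hε A
  obtain ⟨N0, hN0⟩ := eventually_atTop.1
    (fs_eventually (δ := δ) (ε := ε) (η := η) (C := 16 / (3 * ε) * (3 * 3 ^ q)) hδ hε hη0 A)
  refine ⟨η, hη0, N0, ?_⟩
  intro n hn c hG
  obtain ⟨hn1, hs1, hs2, hs3, hs4, h2A, hAlog⟩ := hN0 n hn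
  by_contra hY
  have hY' : (Ycard c : ℝ) < 3 ^ n * Real.exp (-(δ * n)) := not_le.1 hY
  have hnpos : (0 : ℝ) < n := by exact_mod_cast hn1
  have hGpos : (0 : ℝ) < c.G.card := by exact_mod_cast c.ne.card_pos
  -- the bound of K
  have hK : (6 : ℝ) ^ n / c.G.card ≤ Real.exp (η * n) := by
    rw [div_le_iff₀ hGpos]
    calc (6 : ℝ) ^ n = Real.exp (η * n) * (6 ^ n * Real.exp (-(η * n))) := by
          rw [Real.exp_neg]; field_simp
      _ ≤ Real.exp (η * n) * c.G.card := mul_le_mul_of_nonneg_left hG (Real.exp_pos _).le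
  -- the number of blocks
  set N : ℕ := ⌈ε * n / (4 * q)⌉₊ with hN
  have hN1 : ε * n / (4 * q) ≤ N := Nat.le_ceil _
  have hN2 : (N : ℝ) ≤ ε * n / (4 * q) + 1 := (Nat.ceil_lt_add_one (by positivity)).le
  have hpath := path_bound c hε hAlog h2A hn1
  have hsum := sum_bound c hη0.le hq1 hh2 hA1 hqA hn1 hG
  set F : ℝ := 3 * n * 3 ^ q * Real.exp (-(ε / 5 * n)) with hF
  have hfew : ∀ k ∈ Ico A (n - A),
      ex (mu c) (fun x => ind (Lam c ε A k x ∧ ∑ l ∈ range (k / q), Ib c A q k l x < N)) ≤ F := by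
    intro k hk
    rw [mem_Ico] at hk
    refine (few_prob c hq1 hqleA hk.1 (by omega) hn1 N).trans ?_
    exact fs_few hε hη8 hn1 hq hN2 (by omega) hK
  -- summing core_k
  set T : ℝ := 120 / 3 ^ h + 48 * 3 ^ (2 * h + q) * √(3 * A ^ 2 / n + 2 * A * η) + 4 * √η with hT
  have hT0 : 0 ≤ T := by positivity
  set S : ℝ := ∑ k ∈ Ico A (n - A), ex (mu c)
    (fun x => Uf c (obs c (k - A) 0) k x * ind (Lam c ε A k x)) with hS
  have hcore : N * S ≤ 81 * 3 ^ (4 * q) * ((n : ℝ) ^ 2 / q * T) + 2 * N * (n * F) := by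
    have h1 : N * S ≤ ∑ k ∈ Ico A (n - A), (81 * 3 ^ (4 * q) * ∑ l ∈ range (k / q),
          ex (mu c) (fun x => ncf (mu c) (obs c (k - A) (l * q)) (bR c ((l + 1) * q)) x
            * Uf c (obs c (k - A) (l * q)) k x) + 2 * N * F) := by
      rw [hS, Finset.mul_sum]
      apply Finset.sum_le_sum
      intro k hk
      have hk' := hk
      rw [mem_Ico] at hk'
      refine (core_k c hq1 hqleA hk'.1 (by omega) N).trans ?_
      have := mul_le_mul_of_nonneg_left (hfew k hk) (show (0 : ℝ) ≤ 2 * N by positivity)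
      linarith
    rw [Finset.sum_add_distrib, ← Finset.mul_sum, Finset.sum_const, Nat.card_Ico, nsmul_eq_mul]
      at h1
    have hF0 : 0 ≤ 2 * N * F := by positivity
    have hcard : ((n - A - A : ℕ) : ℝ) ≤ n := by exact_mod_cast (by omega : n - A - A ≤ n)
    have h2 := mul_le_mul_of_nonneg_right hcard hF0
    have h3 := mul_le_mul_of_nonneg_left hsum (show (0 : ℝ) ≤ 81 * 3 ^ (4 * q) by positivity)
    linarith
  have hcomb := fs_combine (ε := ε) (n := n) (Q := q) (T := T) (S := S) (F := F)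
    (c4 := 3 ^ (4 * q)) hε hnpos hq0 hN1 (by positivity) hT0 hcore
  rw [← hC1] at hcomb
  -- the pieces
  have p1 : 2 * (Ycard c : ℝ) / 3 ^ n * Real.exp (4 * ε * n) ≤ 2 * Real.exp (-(δ / 2 * n)) := by
    have h3n : (0 : ℝ) < 3 ^ n := by positivity
    calc 2 * (Ycard c : ℝ) / 3 ^ n * Real.exp (4 * ε * n)
        ≤ 2 * (3 ^ n * Real.exp (-(δ * n))) / 3 ^ n * Real.exp (4 * ε * n) := by gcongr
      _ = 2 * (Real.exp (-(δ * n)) * Real.exp (4 * ε * n)) := by field_simp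
      _ = 2 * Real.exp (-(δ / 2 * n)) := by
          rw [← Real.exp_add]; congr 2; rw [hεdef]; ring
  have p2 : C1 * T ≤ C1 * (120 / 3 ^ h) + C1 * (48 * 3 ^ (2 * h + q)) * √(4 * A * η)
      + C1 * 4 * √η := by
    have hsq : √(3 * (A : ℝ) ^ 2 / n + 2 * A * η) ≤ √(4 * A * η) := by
      apply Real.sqrt_le_sqrt; linarith
    have := mul_le_mul_of_nonneg_left hsq (show 0 ≤ C1 * (48 * 3 ^ (2 * h + q)) by positivity)
    rw [hT]
    calc C1 * (120 / 3 ^ h + 48 * 3 ^ (2 * h + q) * √(3 * A ^ 2 / n + 2 * A * η) + 4 * √η)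
        = C1 * (120 / 3 ^ h) + C1 * (48 * 3 ^ (2 * h + q)) * √(3 * A ^ 2 / n + 2 * A * η)
          + C1 * 4 * √η := by ring
      _ ≤ _ := by linarith
  have p3 : 16 / (3 * ε) * F < 1 / 8 := by
    calc 16 / (3 * ε) * F = 16 / (3 * ε) * (3 * 3 ^ q) * (n * Real.exp (-(ε / 5 * n))) := by
          rw [hF]; ring
      _ < 1 / 8 := hs4
  rw [← Finset.mul_sum, ← hS] at hpath
  linarith

end Pool.Agent.helper32.Cant
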